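import Pool.Agent.NA.Stmts

set_option autoImplicit false

open Finset Filter Topology

noncomputable section

namespace Pool.Agent.NA.H49

theorem blf (lnc : LncStmt) : BlfStmt := by
  intro X _ _ C NN δ ε η z K V u ηs k v hC hδ hεδ hη hηs hprod hbet
  obtain ⟨h1, h2, h3⟩ := hbet
  obtain ⟨-, l2, l3, l4, l5⟩ := lnc X C hC
  obtain ⟨z', hz'⟩ : ∃ z' : ℕ → X, z' = fun i => if i < K then z i else v (i - K) - u := ⟨_, rfl⟩
  have hz1 : ∀ i < K, z' i = z i := by
    intro i hi
    rw [hz']
    simp [hi]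
  have hz2 : ∀ r, z' (K + r) = v r - u := by
    intro r
    rw [hz']
    simp
  have hlink : ∀ n ≤ 2 ^ k, Lnk C z' K (K + n) (∏ r ∈ range n, (1 + ηs r)) := by
    intro n
    induction n with
    | zero =>
      intro _
      simpa using l2 z' K
    | succ n ih =>
      intro hn
      have hn' : n < 2 ^ k := hn
      rw [prod_range_succ, ← add_assoc]
      refine l4 z' K (K + n) (K + n + 1) _ _ (ih hn'.le) (l5 z' (K + n) _ ?_ ?_ ?_)
      · have := hηs n
        linarith
      · rw [hz2]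
        intro h0
        have := (h1 n hn').2
        rw [h0, norm_zero] at this
        linarith
      · intro e he a
        rw [hz2]
        refine h2 n hn' e ?_ a
        have hle : sp z' (K + n) ≤
            sp z K ⊔ Submodule.span ℝ ((fun q => v q - u) '' Set.Iio n) := by
          unfold sp
          rw [Submodule.span_le]
          rintro _ ⟨i, hi, rfl⟩
          rcases lt_or_ge i K with hiK | hiK
          · rw [hz1 i hiK]
            exact Submodule.mem_sup_left (Submodule.subset_span ⟨i, hiK, rfl⟩)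
          · obtain ⟨r, rfl⟩ := Nat.exists_eq_add_of_le hiK
            rw [hz2]
            refine Submodule.mem_sup_right (Submodule.subset_span ⟨r, ?_, rfl⟩)
            have : K + r < K + n := hi
            exact Set.mem_Iio.2 (by omega)
        exact hle he
  have hpos : (0 : ℝ) < 2 ^ k := by positivity
  obtain ⟨av, hav⟩ : ∃ av : X, av = ((2 : ℝ) ^ k)⁻¹ • ∑ r ∈ range (2 ^ k), v r := ⟨_, rfl⟩
  rw [← hav] at h3
  have hsum : (2 : ℝ) ^ k • av = ∑ r ∈ range (2 ^ k), v r := by
    rw [hav, smul_smul, mul_inv_cancel₀ hpos.ne', one_smul]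
  have hmem : ∀ r < 2 ^ k, v r - u ∈ sp z' (K + 2 ^ k) := by
    intro r hr
    rw [← hz2 r]
    refine Submodule.subset_span ⟨K + r, ?_, rfl⟩
    exact Set.mem_Iio.2 (by omega)
  have hcard : ∀ w : X, ∑ _m ∈ range (2 ^ k), w = (2 : ℝ) ^ k • w := by
    intro w
    rw [sum_const, card_range, ← Nat.cast_smul_eq_nsmul ℝ]
    push_cast
    rfl
  refine ⟨z', K + 2 ^ k, fun m => V + v m - av, v, ⟨hz1, ?_, ?_, ?_, ?_, ?_⟩, ?_⟩
  · have : 0 < 2 ^ k := by positivity
    omega
  · exact l3 z' K (K + 2 ^ k) _ _ (hprod (2 ^ k)) (hlink _ le_rfl)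
  · rcases Nat.eq_zero_or_pos k with hk | hk
    · exfalso
      subst hk
      have h4 := (h1 0 (by norm_num)).2
      rw [hav] at h3
      simp at h3
      linarith
    · exact hk
  · rw [sum_sub_distrib, sum_add_distrib, hcard, hcard, hsum, add_sub_cancel_right]
  · intro m hm
    refine ⟨(h1 m hm).1, ?_⟩
    have e1 : V + v m - av - V = (v m - u) - ((2 : ℝ) ^ k)⁻¹ • ∑ r ∈ range (2 ^ k), (v r - u) := by
      rw [sum_sub_distrib, hcard, smul_sub, ← hav, smul_smul, inv_mul_cancel₀ hpos.ne', one_smul]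
      abel
    rw [e1]
    refine Submodule.sub_mem _ (hmem m hm) (Submodule.smul_mem _ _ (Submodule.sum_mem _ ?_))
    intro r hr
    exact hmem r (mem_range.1 hr)
  · intro m hm
    refine ⟨?_, (h1 m hm).2⟩
    have e1 : V + v m - av - v m - (V - u) = -(av - u) := by abel
    rw [e1, norm_neg]
    exact h3

theorem lef (hblf : BlfStmt) (half : AlfStmt) : LefStmt := by
  intro X _ _ r hr hr1 hrsv NN δ hN ε ρ η z K V u bt hu hε hεδ hρ hη hη1
  have hC : 1 ≤ 6 / r := by
    rw [le_div_iff₀ hr]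
    linarith
  have hpos : ∀ q : ℕ, 0 < η / 4 ^ (q + 1) := fun q => by positivity
  have hprod : ∀ n, ∏ q ∈ range n, (1 + η / 4 ^ (q + 1)) ≤ 1 + η := by
    have h : ∀ n : ℕ, ∏ q ∈ range n, (1 + η / 4 ^ (q + 1)) ≤ 1 + η * (1 - 1 / 2 ^ n) := by
      intro n
      induction n with
      | zero => simp
      | succ n ih =>
        rw [prod_range_succ]
        have h2 : (0 : ℝ) < 1 / 2 ^ n := by positivity
        have h3 : (1 : ℝ) / 2 ^ n ≤ 1 := by
          rw [div_le_one (by positivity)]
          exact one_le_pow₀ (by norm_num)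
        have h4 : η / 4 ^ (n + 1) = η / 4 * (1 / 2 ^ n) ^ 2 := by
          have : (4 : ℝ) ^ (n + 1) = 4 * (2 ^ n) ^ 2 := by
            rw [pow_succ, ← pow_mul, mul_comm n 2, pow_mul]
            norm_num
            ring
          rw [this]
          field_simp
        have h5 : (1 : ℝ) / 2 ^ (n + 1) = 1 / 2 * (1 / 2 ^ n) := by
          rw [pow_succ]
          field_simp
        obtain ⟨x, hx⟩ : ∃ x : ℝ, x = 1 / 2 ^ n := ⟨_, rfl⟩
        rw [← hx] at h2 h3 h4 h5 ih
        rw [h4, h5]
        have h6 : 0 ≤ η / 4 * x ^ 2 := by positivity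
        calc (∏ q ∈ range n, (1 + η / 4 ^ (q + 1))) * (1 + η / 4 * x ^ 2)
            ≤ (1 + η * (1 - x)) * (1 + η / 4 * x ^ 2) :=
              mul_le_mul_of_nonneg_right ih (by linarith)
          _ ≤ 1 + η * (1 - 1 / 2 * x) := by
              have h7 : η * (1 - x) ≤ 1 := by nlinarith
              have h8 : η / 4 * x ^ 2 ≤ η / 4 * x := by
                refine mul_le_mul_of_nonneg_left ?_ (by positivity)
                nlinarith
              have h9 : η * (1 - x) * (η / 4 * x ^ 2) ≤ 1 * (η / 4 * x ^ 2) :=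
                mul_le_mul_of_nonneg_right h7 h6
              have h10 : 0 ≤ η * x := by positivity
              nlinarith
    intro n
    refine (h n).trans ?_
    have : (0 : ℝ) < 1 / 2 ^ n := by positivity
    nlinarith
  by_cases hb : ∃ (k : ℕ) (v : ℕ → X), Bet NN δ ε (sp z K) u (fun q => η / 4 ^ (q + 1)) k v
  · obtain ⟨k, v, hb⟩ := hb
    obtain ⟨z', K', V', u', h1, h2⟩ := hblf X (6 / r) NN δ ε η z K V u
      (fun q => η / 4 ^ (q + 1)) k v hC hN.1 hεδ hη (fun q => (hpos q).le) hprod hb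
    exact ⟨z', K', k, V', u', bt + 1, h1, fun m hm => Or.inl ⟨rfl, h2 m hm⟩⟩
  · obtain ⟨z', K', k, V', u', h1, h2⟩ := half X r hr hr1 hrsv NN δ hN ε ρ η z K V u
      (fun q => η / 4 ^ (q + 1)) hu hε hρ hη hη1 hpos hb
    exact ⟨z', K', k, V', u', bt, h1, fun m hm => Or.inr ⟨rfl, h2 m hm⟩⟩

end Pool.Agent.NA.H49
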